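import Mathlib

/-!
# Dyadic contents
-/

set_option autoImplicit false

open MeasureTheory Set Filter Topology
open scoped ENNReal NNReal

namespace Pool.Agent.V5helper19.KD

/-- a set with arbitrarily efficient covers by cells is a null set -/
theorem null_gen {X Z : Type*} [EMetricSpace X] [MeasurableSpace X] [BorelSpace X] [Countable Z]
    (φ : ℕ → X → Z) (hφ : ∀ k v w, φ k v = φ k w → edist v w ≤ ENNReal.ofReal ((1 / 2 : ℝ) ^ k))
    (V : Set X) (hfin : ∀ k, (φ k '' V).Finite) (s : ℝ) (hs : 0 < s)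
    (h : ∀ y : ℝ, 0 < y → ∃ W : ℕ → Set X, V ⊆ ⋃ k, W k ∧ (∀ k, W k ⊆ V) ∧
      ∑' k, ENNReal.ofReal (((φ k '' W k).ncard : ℝ) * ((1 / 2 : ℝ) ^ k) ^ s) < ENNReal.ofReal y) :
    μH[s] V = 0 := by
  have hpos : ∀ m : ℕ, 0 < ((1 / 2 : ℝ) ^ m) ^ s := fun m => by positivity
  choose W hW hWV hWs using fun m : ℕ => h (((1 / 2 : ℝ) ^ m) ^ s) (hpos m)
  have hhalf : Tendsto (fun m : ℕ => ENNReal.ofReal ((1 / 2 : ℝ) ^ m)) atTop (𝓝 0) := by
    rw [← ENNReal.ofReal_zero]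
    exact ENNReal.tendsto_ofReal
      (tendsto_pow_atTop_nhds_zero_of_lt_one (by norm_num) (by norm_num))
  have hfin' : ∀ m k, (φ k '' W m k).Finite := fun m k => (hfin k).subset (image_mono (hWV m k))
  have hdiam : ∀ (m k : ℕ) (g : Z),
      Metric.ediam {v | v ∈ W m k ∧ φ k v = g} ≤ ENNReal.ofReal ((1 / 2 : ℝ) ^ k) := by
    intro m k g
    apply Metric.ediam_le
    intro v hv w hw
    exact hφ k v w (hv.2.trans hw.2.symm)
  have hscale : ∀ m k, (φ k '' W m k).Nonempty → m ≤ k := by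
    intro m k hne
    by_contra hcon
    push Not at hcon
    have h1 : 1 ≤ (φ k '' W m k).ncard := (Set.ncard_pos (hfin' m k)).2 hne
    have h2 : ENNReal.ofReal (((φ k '' W m k).ncard : ℝ) * ((1 / 2 : ℝ) ^ k) ^ s) <
        ENNReal.ofReal (((1 / 2 : ℝ) ^ m) ^ s) := (ENNReal.le_tsum k).trans_lt (hWs m)
    rw [ENNReal.ofReal_lt_ofReal_iff (hpos m)] at h2
    have h3 : (1 : ℝ) ≤ ((φ k '' W m k).ncard : ℝ) := by exact_mod_cast h1
    have h4 : ((1 / 2 : ℝ) ^ m) ^ s ≤ ((1 / 2 : ℝ) ^ k) ^ s := by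
      apply Real.rpow_le_rpow (by positivity) _ hs.le
      exact pow_le_pow_of_le_one (by norm_num) (by norm_num) hcon.le
    have h5 := hpos k
    nlinarith
  have key := Measure.hausdorffMeasure_le_liminf_tsum (β := ℕ)
    (ι := fun m => Σ k : ℕ, ↥(φ k '' W m k)) s V (l := atTop)
    (fun m => ENNReal.ofReal ((1 / 2 : ℝ) ^ m)) hhalf
    (fun m p => {v | v ∈ W m p.1 ∧ φ p.1 v = p.2.1})
    (by
      refine Filter.Eventually.of_forall fun m p => (hdiam m p.1 p.2.1).trans ?_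
      exact ENNReal.ofReal_le_ofReal (pow_le_pow_of_le_one (by norm_num) (by norm_num)
        (hscale m p.1 ⟨p.2.1, p.2.2⟩)))
    (by
      refine Filter.Eventually.of_forall fun m v hv => ?_
      obtain ⟨k, hk⟩ := mem_iUnion.1 (hW m hv)
      exact mem_iUnion.2 ⟨⟨k, ⟨φ k v, v, hk, rfl⟩⟩, hk, rfl⟩)
  refine le_antisymm (key.trans ?_) bot_le
  have hbound : ∀ m, ∑' p : (Σ k : ℕ, ↥(φ k '' W m k)),
      Metric.ediam {v | v ∈ W m p.1 ∧ φ p.1 v = p.2.1} ^ s ≤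
        ENNReal.ofReal (((1 / 2 : ℝ) ^ m) ^ s) := by
    intro m
    rw [ENNReal.tsum_sigma']
    refine le_trans (ENNReal.tsum_le_tsum fun k => ?_) (hWs m).le
    calc ∑' g : ↥(φ k '' W m k), Metric.ediam {v | v ∈ W m k ∧ φ k v = g.1} ^ s
        ≤ ∑' _g : ↥(φ k '' W m k), ENNReal.ofReal (((1 / 2 : ℝ) ^ k) ^ s) := by
          refine ENNReal.tsum_le_tsum fun g => ?_
          rw [← ENNReal.ofReal_rpow_of_nonneg (by positivity) hs.le]
          exact ENNReal.rpow_le_rpow (hdiam m k g.1) hs.le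
      _ = ((φ k '' W m k).encard : ℝ≥0∞) * ENNReal.ofReal (((1 / 2 : ℝ) ^ k) ^ s) :=
          ENNReal.tsum_set_const _ _
      _ = ENNReal.ofReal (((φ k '' W m k).ncard : ℝ) * ((1 / 2 : ℝ) ^ k) ^ s) := by
          rw [ENNReal.ofReal_mul (by positivity), ENNReal.ofReal_natCast,
            ← (hfin' m k).cast_ncard_eq]
          rfl
  have hlim : Tendsto (fun m : ℕ => ENNReal.ofReal (((1 / 2 : ℝ) ^ m) ^ s)) atTop (𝓝 0) := by
    rw [← ENNReal.ofReal_zero]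
    refine ENNReal.tendsto_ofReal ?_
    have h1 : ∀ m : ℕ, ((1 / 2 : ℝ) ^ m) ^ s = ((1 / 2 : ℝ) ^ s) ^ m := by
      intro m
      rw [← Real.rpow_natCast, ← Real.rpow_natCast, ← Real.rpow_mul (by norm_num),
        ← Real.rpow_mul (by norm_num), mul_comm]
    simp_rw [h1]
    exact tendsto_pow_atTop_nhds_zero_of_lt_one (by positivity)
      (Real.rpow_lt_one (by norm_num) (by norm_num) hs)
  rw [← hlim.liminf_eq]
  exact liminf_le_liminf (Filter.Eventually.of_forall hbound)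

/-- the dyadic interval of side `2 ^ (-k)` of a number -/
noncomputable def fr (k : ℕ) (x : ℝ) : ℤ := ⌊((2 ^ k : ℕ) : ℝ) * x⌋

theorem fr_dist (k : ℕ) (v w : ℝ) (h : fr k v = fr k w) :
    edist v w ≤ ENNReal.ofReal ((1 / 2 : ℝ) ^ k) := by
  rw [edist_dist]
  apply ENNReal.ofReal_le_ofReal
  have h2 : |((2 ^ k : ℕ) : ℝ) * v - ((2 ^ k : ℕ) : ℝ) * w| < 1 :=
    Int.abs_sub_lt_one_of_floor_eq_floor h
  have hn0 : (0 : ℝ) < ((2 ^ k : ℕ) : ℝ) := by positivity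
  rw [← mul_sub, abs_mul, abs_of_pos hn0] at h2
  rw [Real.dist_eq]
  have h3 : (1 / 2 : ℝ) ^ k * ((2 ^ k : ℕ) : ℝ) = 1 := by
    push_cast
    rw [← mul_pow]
    norm_num
  have h4 : |v - w| = (1 / 2 : ℝ) ^ k * (((2 ^ k : ℕ) : ℝ) * |v - w|) := by
    rw [← mul_assoc, h3, one_mul]
  rw [h4]
  calc (1 / 2 : ℝ) ^ k * (((2 ^ k : ℕ) : ℝ) * |v - w|) ≤ (1 / 2 : ℝ) ^ k * 1 :=
        mul_le_mul_of_nonneg_left h2.le (by positivity)
    _ = _ := mul_one _

theorem fr_finite (k : ℕ) (E : Set ℝ) (hE : ∀ x ∈ E, 0 ≤ x ∧ x < 1) : (fr k '' E).Finite := by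
  apply (Set.finite_Icc (0 : ℤ) ((2 ^ k : ℕ) : ℤ)).subset
  rintro _ ⟨x, hx, rfl⟩
  have hn0 : (0 : ℝ) < ((2 ^ k : ℕ) : ℝ) := by positivity
  have h3 := hE x hx
  constructor
  · exact Int.floor_nonneg.2 (mul_nonneg hn0.le h3.1)
  · have h4 : ((2 ^ k : ℕ) : ℝ) * x ≤ (((2 ^ k : ℕ) : ℤ) : ℝ) := by
      rw [Int.cast_natCast]
      nlinarith
    exact Int.cast_le.1 ((Int.floor_le _).trans h4)

/-- the dyadic content of dimension `s` of `E` is at least `y` -/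
def Cont (s y : ℝ) (E : Set ℝ) : Prop := ∀ W : ℕ → Set ℝ, E ⊆ ⋃ k, W k → (∀ k, W k ⊆ E) →
  ENNReal.ofReal y ≤ ∑' k, ENNReal.ofReal (((fr k '' W k).ncard : ℝ) * ((1 / 2 : ℝ) ^ k) ^ s)

theorem Cont.mono {s y : ℝ} {E F : Set ℝ} (h : Cont s y E) (hEF : E ⊆ F)
    (hF : ∀ x ∈ F, 0 ≤ x ∧ x < 1) : Cont s y F := by
  intro W hW hWF
  refine (h (fun k => W k ∩ E) ?_ fun k => inter_subset_right).trans ?_
  · intro x hx
    obtain ⟨k, hk⟩ := mem_iUnion.1 (hW (hEF hx))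
    exact mem_iUnion.2 ⟨k, hk, hx⟩
  · refine ENNReal.tsum_le_tsum fun k => ENNReal.ofReal_le_ofReal ?_
    refine mul_le_mul_of_nonneg_right ?_ (by positivity)
    exact_mod_cast Set.ncard_le_ncard (image_mono inter_subset_left)
      ((fr_finite k F hF).subset (image_mono (hWF k)))

/-- a set of dimension larger than `s` has positive content -/
theorem exists_cont {E : Set ℝ} (hE : ∀ x ∈ E, 0 ≤ x ∧ x < 1) {s : ℝ} (hs : 0 < s)
    (h : ENNReal.ofReal s < dimH E) : ∃ m : ℕ, Cont s (1 / ((m + 1 : ℕ) : ℝ)) E := by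
  by_contra hno
  push Not at hno
  have h0 : μH[s] E = 0 := by
    refine null_gen fr fr_dist E (fun k => fr_finite k E hE) s hs fun y hy => ?_
    obtain ⟨m, hm⟩ := exists_nat_one_div_lt hy
    have h1 := hno m
    unfold Cont at h1
    push Not at h1
    obtain ⟨W, hW1, hW2, hW3⟩ := h1
    refine ⟨W, hW1, hW2, hW3.trans_le (ENNReal.ofReal_le_ofReal ?_)⟩
    push_cast
    exact hm.le
  have h2 : μH[((Real.toNNReal s : ℝ≥0) : ℝ)] E = ⊤ :=
    hausdorffMeasure_of_lt_dimH h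
  rw [Real.coe_toNNReal s hs.le, h0] at h2
  exact ENNReal.zero_ne_top h2

/-- pigeonhole for contents -/
theorem pigeonC {s y ρ : ℝ} {E : Set ℝ} (hE : Cont s y E) (hy : 0 < y) (hρ0 : 0 < ρ) (hρ1 : ρ < 1)
    (F : ℕ → Set ℝ) (hF : E ⊆ ⋃ k, F k)
    (hF1 : ∀ k, ∀ x ∈ F k, 0 ≤ x ∧ x < 1) :
    ∃ k : ℕ, y * (1 - ρ) / 2 * ρ ^ k ≤ ((fr k '' F k).ncard : ℝ) * ((1 / 2 : ℝ) ^ k) ^ s := by
  by_contra hcon
  push Not at hcon
  have h1 := hE (fun k => F k ∩ E) (by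
    intro x hx
    obtain ⟨k, hk⟩ := mem_iUnion.1 (hF hx)
    exact mem_iUnion.2 ⟨k, hk, hx⟩) (fun k => inter_subset_right)
  have h2 : ∑' k, ENNReal.ofReal (((fr k '' (F k ∩ E)).ncard : ℝ) * ((1 / 2 : ℝ) ^ k) ^ s) ≤
      ∑' k : ℕ, ENNReal.ofReal (y * (1 - ρ) / 2 * ρ ^ k) := by
    refine ENNReal.tsum_le_tsum fun k => ENNReal.ofReal_le_ofReal (le_trans ?_ (hcon k).le)
    refine mul_le_mul_of_nonneg_right ?_ (by positivity)
    exact_mod_cast Set.ncard_le_ncard (image_mono inter_subset_left)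
      (fr_finite k (F k) (hF1 k))
  have hpos : 0 < y * (1 - ρ) / 2 := by
    have : 0 < 1 - ρ := by linarith
    positivity
  have hsum : Summable fun k : ℕ => y * (1 - ρ) / 2 * ρ ^ k :=
    (summable_geometric_of_lt_one hρ0.le hρ1).mul_left _
  have h3 : ∑' k : ℕ, ENNReal.ofReal (y * (1 - ρ) / 2 * ρ ^ k) = ENNReal.ofReal (y / 2) := by
    rw [← ENNReal.ofReal_tsum_of_nonneg (fun k => by positivity) hsum, tsum_mul_left,
      tsum_geometric_of_lt_one hρ0.le hρ1]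
    congr 1
    have : 1 - ρ ≠ 0 := by linarith
    field_simp
  have h4 : ENNReal.ofReal y ≤ ENNReal.ofReal (y / 2) := by
    rw [← h3]
    exact h1.trans h2
  have h5 := (ENNReal.ofReal_le_ofReal_iff (by positivity)).1 h4
  linarith

end Pool.Agent.V5helper19.KD
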