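import Mathlib

/-!
# Counting grid cubes and Hausdorff measure
-/

set_option autoImplicit false

open MeasureTheory Set Filter Topology
open scoped ENNReal NNReal

namespace Pool.Agent.V5helper19.KD

/-- the grid cube of side `2 ^ (-k)` of a point -/
noncomputable def fl (d k : ℕ) (v : Fin d → ℝ) : Fin d → ℤ := fun i => ⌊((2 ^ k : ℕ) : ℝ) * v i⌋

theorem fl_finite (d k : ℕ) (W : Set (Fin d → ℝ)) (hW : ∀ v ∈ W, ∀ i, 0 ≤ v i ∧ v i ≤ 1) :
    (fl d k '' W).Finite := by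
  apply Set.Finite.subset
    (Fintype.piFinset (fun _ : Fin d => Finset.Icc (0 : ℤ) ((2 ^ k : ℕ) : ℤ))).finite_toSet
  rintro g ⟨v, hv, rfl⟩
  rw [Finset.mem_coe, Fintype.mem_piFinset]
  intro i
  rw [Finset.mem_Icc]
  have h3 := hW v hv i
  have hn0 : (0 : ℝ) < ((2 ^ k : ℕ) : ℝ) := by positivity
  constructor
  · exact Int.floor_nonneg.2 (mul_nonneg hn0.le h3.1)
  · have h4 : ((2 ^ k : ℕ) : ℝ) * v i ≤ (((2 ^ k : ℕ) : ℤ) : ℝ) := by
      rw [Int.cast_natCast]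
      nlinarith
    exact Int.cast_le.1 ((Int.floor_le _).trans h4)

theorem fl_dist {d k : ℕ} {v w : Fin d → ℝ} (h : fl d k v = fl d k w) :
    edist v w ≤ ENNReal.ofReal ((1 / 2 : ℝ) ^ k) := by
  rw [edist_dist]
  apply ENNReal.ofReal_le_ofReal
  rw [dist_pi_le_iff (by positivity)]
  intro i
  have h1 := congrFun h i
  have h2 : |((2 ^ k : ℕ) : ℝ) * v i - ((2 ^ k : ℕ) : ℝ) * w i| < 1 := by
    exact Int.abs_sub_lt_one_of_floor_eq_floor h1
  have hn0 : (0 : ℝ) < ((2 ^ k : ℕ) : ℝ) := by positivity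
  rw [← mul_sub, abs_mul, abs_of_pos hn0] at h2
  rw [Real.dist_eq]
  have h3 : (1 / 2 : ℝ) ^ k * ((2 ^ k : ℕ) : ℝ) = 1 := by
    push_cast
    rw [← mul_pow]
    norm_num
  have h4 : |v i - w i| = (1 / 2 : ℝ) ^ k * (((2 ^ k : ℕ) : ℝ) * |v i - w i|) := by
    rw [← mul_assoc, h3, one_mul]
  rw [h4]
  calc (1 / 2 : ℝ) ^ k * (((2 ^ k : ℕ) : ℝ) * |v i - w i|) ≤ (1 / 2 : ℝ) ^ k * 1 :=
        mul_le_mul_of_nonneg_left h2.le (by positivity)
    _ = _ := mul_one _

/-- a set with arbitrarily fine efficient covers by grid cubes is a null set -/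
theorem null_of_counts {d : ℕ} (V : Set (Fin d → ℝ)) (hV01 : ∀ v ∈ V, ∀ i, 0 ≤ v i ∧ v i ≤ 1)
    (s : ℝ) (hs : 0 ≤ s) (ρ : ℝ) (hρ0 : 0 < ρ) (hρ1 : ρ < 1) (W : ℕ → ℕ → Set (Fin d → ℝ)) (m0 : ℕ)
    (hW : ∀ m, m0 ≤ m → V ⊆ ⋃ k, W m k) (hsub : ∀ m k, W m k ⊆ V)
    (hemp : ∀ m k, k < m → W m k = ∅)
    (hcount : ∀ m, m0 ≤ m → ∀ k, ((fl d k '' W m k).ncard : ℝ) ≤ ρ ^ k * ((2 : ℝ) ^ k) ^ s) :
    μH[s] V = 0 := by
  obtain ⟨σ, hσ⟩ : ∃ σ : ℝ, σ = Real.sqrt ρ := ⟨_, rfl⟩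
  have hσ0 : 0 < σ := by rw [hσ]; exact Real.sqrt_pos.2 hρ0
  have hσ2 : σ * σ = ρ := by rw [hσ]; exact Real.mul_self_sqrt hρ0.le
  have hσ1 : σ < 1 := by nlinarith
  have hhalf : Tendsto (fun m : ℕ => ENNReal.ofReal ((1 / 2 : ℝ) ^ m)) atTop (𝓝 0) := by
    rw [← ENNReal.ofReal_zero]
    exact ENNReal.tendsto_ofReal
      (tendsto_pow_atTop_nhds_zero_of_lt_one (by norm_num) (by norm_num))
  have hfin : ∀ m k, (fl d k '' W m k).Finite := fun m k =>
    fl_finite d k _ fun v hv => hV01 v (hsub m k hv)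
  have hdiam : ∀ (m k : ℕ) (g : Fin d → ℤ),
      Metric.ediam {v | v ∈ W m k ∧ fl d k v = g} ≤ ENNReal.ofReal ((1 / 2 : ℝ) ^ k) := by
    intro m k g
    apply Metric.ediam_le
    intro v hv w hw
    exact fl_dist (hv.2.trans hw.2.symm)
  have key := Measure.hausdorffMeasure_le_liminf_tsum (β := ℕ)
    (ι := fun m => Σ k : ℕ, ↥(fl d k '' W m k)) s V (l := atTop)
    (fun m => ENNReal.ofReal ((1 / 2 : ℝ) ^ m)) hhalf
    (fun m p => {v | v ∈ W m p.1 ∧ fl d p.1 v = p.2.1})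
    (by
      refine Filter.Eventually.of_forall fun m p => (hdiam m p.1 p.2.1).trans ?_
      have hk : m ≤ p.1 := by
        by_contra hcon
        push Not at hcon
        obtain ⟨v, hv, -⟩ := p.2.2
        rw [hemp m p.1 hcon] at hv
        exact hv
      exact ENNReal.ofReal_le_ofReal (pow_le_pow_of_le_one (by norm_num) (by norm_num) hk))
    (by
      refine Filter.eventually_atTop.2 ⟨m0, fun m hm v hv => ?_⟩
      obtain ⟨k, hk⟩ := mem_iUnion.1 (hW m hm hv)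
      exact mem_iUnion.2 ⟨⟨k, ⟨fl d k v, v, hk, rfl⟩⟩, hk, rfl⟩)
  refine le_antisymm (key.trans ?_) bot_le
  have hbound : ∀ m, m0 ≤ m → ∑' p : (Σ k : ℕ, ↥(fl d k '' W m k)),
      Metric.ediam {v | v ∈ W m p.1 ∧ fl d p.1 v = p.2.1} ^ s ≤
        ENNReal.ofReal (σ ^ m * (1 - σ)⁻¹) := by
    intro m hm
    rw [ENNReal.tsum_sigma']
    have h1 : ∀ k : ℕ, ∑' g : ↥(fl d k '' W m k),
        Metric.ediam {v | v ∈ W m k ∧ fl d k v = g.1} ^ s ≤ ENNReal.ofReal (σ ^ m * σ ^ k) := by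
      intro k
      rcases lt_or_ge k m with hkm | hkm
      · have : IsEmpty ↥(fl d k '' W m k) := by
          rw [hemp m k hkm, image_empty]
          exact Set.isEmpty_coe_sort.2 rfl
        rw [tsum_empty]
        exact bot_le
      · calc ∑' g : ↥(fl d k '' W m k), Metric.ediam {v | v ∈ W m k ∧ fl d k v = g.1} ^ s
            ≤ ∑' _g : ↥(fl d k '' W m k), ENNReal.ofReal (((1 / 2 : ℝ) ^ k) ^ s) := by
              refine ENNReal.tsum_le_tsum fun g => ?_
              rw [← ENNReal.ofReal_rpow_of_nonneg (by positivity) hs]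
              exact ENNReal.rpow_le_rpow (hdiam m k g.1) hs
          _ = ((fl d k '' W m k).encard : ℝ≥0∞) * ENNReal.ofReal (((1 / 2 : ℝ) ^ k) ^ s) :=
              ENNReal.tsum_set_const _ _
          _ = ENNReal.ofReal (((fl d k '' W m k).ncard : ℝ) * ((1 / 2 : ℝ) ^ k) ^ s) := by
              rw [ENNReal.ofReal_mul (by positivity), ENNReal.ofReal_natCast,
                ← (hfin m k).cast_ncard_eq]
              rfl
          _ ≤ ENNReal.ofReal (σ ^ m * σ ^ k) := by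
              apply ENNReal.ofReal_le_ofReal
              calc ((fl d k '' W m k).ncard : ℝ) * ((1 / 2 : ℝ) ^ k) ^ s
                  ≤ (ρ ^ k * ((2 : ℝ) ^ k) ^ s) * ((1 / 2 : ℝ) ^ k) ^ s :=
                    mul_le_mul_of_nonneg_right (hcount m hm k) (by positivity)
                _ = ρ ^ k := by
                    rw [mul_assoc, ← Real.mul_rpow (by positivity) (by positivity), ← mul_pow]
                    norm_num
                _ = σ ^ k * σ ^ k := by rw [← hσ2, mul_pow]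
                _ ≤ σ ^ m * σ ^ k := by
                    refine mul_le_mul_of_nonneg_right ?_ (by positivity)
                    exact pow_le_pow_of_le_one hσ0.le hσ1.le hkm
    refine (ENNReal.tsum_le_tsum h1).trans (le_of_eq ?_)
    rw [← ENNReal.ofReal_tsum_of_nonneg (fun k => by positivity)
      ((summable_geometric_of_lt_one hσ0.le hσ1).mul_left _), tsum_mul_left,
      tsum_geometric_of_lt_one hσ0.le hσ1]
  have hlim : Tendsto (fun m : ℕ => ENNReal.ofReal (σ ^ m * (1 - σ)⁻¹)) atTop (𝓝 0) := by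
    rw [← ENNReal.ofReal_zero]
    refine ENNReal.tendsto_ofReal ?_
    have := (tendsto_pow_atTop_nhds_zero_of_lt_one hσ0.le hσ1).mul_const (1 - σ)⁻¹
    rwa [zero_mul] at this
  rw [← hlim.liminf_eq]
  exact liminf_le_liminf (Filter.eventually_atTop.2 ⟨m0, hbound⟩)

end Pool.Agent.V5helper19.KD
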