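import Pool.Agent.Y674.HK.Haus
import Pool.Agent.V5helper19.KD.Cont

/-!
# Slopes of thick lines: Hausdorff dimension of the set of slopes
-/

set_option autoImplicit false

open MeasureTheory
open scoped ENNReal NNReal

namespace Pool.Agent.V5helper19.KD
open Pool.Agent.W46.HD Pool.Agent.W605.HD Pool.Agent.Y674.HK

/-- the linear part of `pt d 1` -/
noncomputable def lp (d : ℕ) : (Fin d → ℝ) →ₗ[ℝ] EuclideanSpace ℝ (Fin (d + 1)) where
  toFun v := pt d 0 v
  map_add' x y := by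
    ext l
    refine Fin.cases ?_ (fun i => ?_) l
    · simp only [PiLp.add_apply, pt_zero, add_zero]
    · simp only [PiLp.add_apply, pt_succ, Pi.add_apply]
  map_smul' c x := by
    ext l
    refine Fin.cases ?_ (fun i => ?_) l
    · simp only [PiLp.smul_apply, smul_eq_mul, pt_zero, mul_zero]
    · simp only [PiLp.smul_apply, smul_eq_mul, pt_succ, Pi.smul_apply, RingHom.id_apply]

theorem pt_one (d : ℕ) (v : Fin d → ℝ) : pt d 1 v = pt d 1 0 + lp d v := by
  ext l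
  refine Fin.cases ?_ (fun i => ?_) l
  · change (1 : ℝ) = 1 + 0
    norm_num
  · change v i = 0 + v i
    rw [zero_add]

theorem contDiff_pt (d : ℕ) : ContDiff ℝ 1 (fun v : Fin d → ℝ => pt d 1 v) := by
  have h : (fun v : Fin d → ℝ => pt d 1 v) = fun v => pt d 1 0 + lp d v := by
    funext v
    exact pt_one d v
  rw [h]
  exact contDiff_const.add (LinearMap.toContinuousLinearMap (lp d)).contDiff

theorem pt_ne (d : ℕ) (v : Fin d → ℝ) : pt d 1 v ≠ 0 := by
  intro h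
  have h1 : (pt d 1 v) 0 = (0 : EuclideanSpace ℝ (Fin (d + 1))) 0 := by rw [h]
  rw [pt_zero] at h1
  exact one_ne_zero h1

/-- the unit vector of slope `v` -/
noncomputable def nv (d : ℕ) (v : Fin d → ℝ) : EuclideanSpace ℝ (Fin (d + 1)) :=
  ‖pt d 1 v‖⁻¹ • pt d 1 v

theorem contDiff_nv (d : ℕ) : ContDiff ℝ 1 (nv d) := by
  have h1 := contDiff_pt d
  have h2 : ContDiff ℝ 1 (fun v : Fin d → ℝ => ‖pt d 1 v‖) := h1.norm ℝ (pt_ne d)
  exact (h2.inv fun v => (norm_pos_iff.2 (pt_ne d v)).ne').smul h1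

/-- a unit vector is plus or minus the unit vector of its slope -/
theorem unit_eq (d : ℕ) (e : EuclideanSpace ℝ (Fin (d + 1))) (he : ‖e‖ = 1) (h0 : e 0 ≠ 0) :
    e = nv d (sl d e) ∨ e = -nv d (sl d e) := by
  have h1 : e = e 0 • pt d 1 (sl d e) := by
    ext l
    refine Fin.cases ?_ (fun i => ?_) l
    · simp only [PiLp.smul_apply, smul_eq_mul, pt_zero, mul_one]
    · simp only [PiLp.smul_apply, smul_eq_mul, pt_succ, sl]
      field_simp
  have h2 : |e 0| * ‖pt d 1 (sl d e)‖ = 1 := by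
    have h4 : ‖e‖ = ‖e 0 • pt d 1 (sl d e)‖ := congrArg norm h1
    rw [norm_smul, Real.norm_eq_abs, he] at h4
    exact h4.symm
  have h3 : ‖pt d 1 (sl d e)‖⁻¹ = |e 0| := by
    rw [inv_eq_iff_eq_inv]
    exact eq_inv_of_mul_eq_one_right h2
  unfold nv
  rw [h3]
  rcases abs_choice (e 0) with h | h
  · left
    rw [h]
    exact h1
  · right
    rw [h, neg_smul, neg_neg]
    exact h1

theorem dimH_slopes (d : ℕ) (U : Set (EuclideanSpace ℝ (Fin (d + 1))))
    (hU : ∀ e ∈ U, ‖e‖ = 1 ∧ e 0 ≠ 0) (V : Set (Fin d → ℝ)) (hV : ∀ e ∈ U, sl d e ∈ V) :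
    dimH U ≤ dimH V := by
  have h1 : dimH (nv d '' V) ≤ dimH V :=
    (contDiff_nv d).contDiffOn.dimH_image_le convex_univ (Set.subset_univ V)
  have h2 : dimH ((fun v => -nv d v) '' V) ≤ dimH V :=
    (contDiff_nv d).neg.contDiffOn.dimH_image_le convex_univ (Set.subset_univ V)
  have h3 : U ⊆ nv d '' V ∪ (fun v => -nv d v) '' V := by
    intro e he
    rcases unit_eq d e (hU e he).1 (hU e he).2 with h | h
    · left
      exact ⟨_, hV e he, h.symm⟩
    · right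
      exact ⟨_, hV e he, h.symm⟩
  refine (dimH_mono h3).trans ?_
  rw [dimH_union]
  exact max_le h1 h2

/-- a line which meets `K` in a large dimension is a graph over the first axis -/
theorem thick_lineD (d : ℕ) (K : Set (EuclideanSpace ℝ (Fin (d + 1))))
    (a e : EuclideanSpace ℝ (Fin (d + 1))) (he : e 0 ≠ 0) :
    dimH {t : ℝ | a + t • e ∈ K} ≤ dimH {x : ℝ | pt d x
      (fun i => (a (Fin.succ i) - a 0 * sl d e i) + x * sl d e i) ∈ K} := by
  obtain ⟨H, hH⟩ : ∃ H : Set ℝ, H = {x : ℝ | pt d x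
    (fun i => (a (Fin.succ i) - a 0 * sl d e i) + x * sl d e i) ∈ K} := ⟨_, rfl⟩
  rw [← hH]
  have h1 : {t : ℝ | a + t • e ∈ K} ⊆ (fun x : ℝ => (x - a 0) * (e 0)⁻¹) '' H := by
    intro t ht
    refine ⟨a 0 + t * e 0, ?_, by field_simp; ring⟩
    rw [hH]
    have h2 : a + t • e = pt d (a 0 + t * e 0)
        (fun i => (a (Fin.succ i) - a 0 * sl d e i) + (a 0 + t * e 0) * sl d e i) := by
      ext l
      refine Fin.cases ?_ (fun i => ?_) l
      · simp only [PiLp.add_apply, PiLp.smul_apply, smul_eq_mul, pt_zero]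
      · simp only [PiLp.add_apply, PiLp.smul_apply, smul_eq_mul, pt_succ, sl]
        field_simp
        ring
    change pt d (a 0 + t * e 0)
        (fun i => (a (Fin.succ i) - a 0 * sl d e i) + (a 0 + t * e 0) * sl d e i) ∈ K
    rw [← h2]
    exact ht
  refine (dimH_mono h1).trans ?_
  have h3 : LipschitzWith (Real.nnabs (e 0)⁻¹) (fun x : ℝ => (x - a 0) * (e 0)⁻¹) := by
    refine LipschitzWith.of_dist_le_mul fun x y => ?_
    rw [Real.dist_eq, Real.dist_eq, Real.coe_nnabs, ← sub_mul, abs_mul, mul_comm]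
    refine mul_le_mul_of_nonneg_left (le_of_eq ?_) (abs_nonneg _)
    congr 1
    ring
  exact h3.dimH_image_le H

/-- Many of the thick lines are graphs over a common interval, with slopes in the unit cube,
after a shear; the dimension of the set of slopes is large. -/
theorem slopesE (d : ℕ) (s : ℝ≥0∞) (β : ℝ) (hβ : 0 < β)
    (U K : Set (EuclideanSpace ℝ (Fin (d + 1))))
    (hK : ∀ e ∈ U, ‖e‖ = 1 ∧ e 0 ≠ 0 ∧ ∃ a : EuclideanSpace ℝ (Fin (d + 1)),
      ENNReal.ofReal β < dimH {t : ℝ | a + t • e ∈ K})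
    (hU : s < dimH U) :
    ∃ (g : Fin d → ℤ) (h0 : ℝ) (V : Set (Fin d → ℝ)) (B : (Fin d → ℝ) → Fin d → ℝ) (y2 : ℝ),
      0 < y2 ∧ (∀ v ∈ V, ∀ i, 0 ≤ v i ∧ v i ≤ 1) ∧ s < dimH V ∧
      ∀ v ∈ V, Cont β y2 {τ : ℝ | (0 ≤ τ ∧ τ < 1) ∧
        pt d (h0 + τ) (fun i => B v i + τ * v i) ∈ shr d g '' K} := by
  obtain ⟨V0, hV0⟩ : ∃ V0 : Set (Fin d → ℝ), V0 = {w | ∃ b : Fin d → ℝ,
    ENNReal.ofReal β < dimH {x : ℝ | pt d x (fun i => b i + x * w i) ∈ K}} := ⟨_, rfl⟩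
  have hdim : s < dimH V0 := by
    refine hU.trans_le (dimH_slopes d U (fun e he => ⟨(hK e he).1, (hK e he).2.1⟩) V0 ?_)
    intro e he
    obtain ⟨-, he0, a, ha⟩ := hK _ he
    rw [hV0]
    exact ⟨_, ha.trans_le (thick_lineD d K a _ he0)⟩
  have hex : ∀ w : Fin d → ℝ, ∃ b : Fin d → ℝ, w ∈ V0 →
      ENNReal.ofReal β < dimH {x : ℝ | pt d x (fun i => b i + x * w i) ∈ K} := by
    intro w
    by_cases hw : w ∈ V0
    · rw [hV0] at hw
      obtain ⟨b, hb⟩ := hw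
      exact ⟨b, fun _ => hb⟩
    · exact ⟨0, fun h => absurd h hw⟩
  choose b hb using hex
  let Hs : (Fin d → ℝ) → ℤ → Set ℝ := fun w q => {x : ℝ | (0 ≤ x ∧ x < 1) ∧
    pt d (q + x) (fun i => b w i + (q + x) * w i) ∈ K}
  let W : (Fin d → ℤ) × ℤ × ℕ → Set (Fin d → ℝ) := fun p => {w | (∀ i, ⌊w i⌋ = p.1 i) ∧
    Cont β (1 / ((p.2.2 + 1 : ℕ) : ℝ)) (Hs w p.2.1)}
  have hcov : V0 ⊆ ⋃ p, W p := by
    intro w hw
    have h1 := hb w hw
    have h2 : ∃ q : ℤ, ENNReal.ofReal β < dimH (Hs w q) := by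
      have h3 : {x : ℝ | pt d x (fun i => b w i + x * w i) ∈ K} ⊆
          ⋃ q : ℤ, (fun x : ℝ => (q : ℝ) + x) '' Hs w q := by
        intro x hx
        refine Set.mem_iUnion.2 ⟨⌊x⌋, x - ⌊x⌋, ⟨⟨?_, ?_⟩, ?_⟩, by ring⟩
        · have := Int.floor_le x
          linarith
        · have := Int.lt_floor_add_one x
          linarith
        · have e1 : (⌊x⌋ : ℝ) + (x - ⌊x⌋) = x := by ring
          rw [e1]
          exact hx
      have h4 : ENNReal.ofReal β < ⨆ q : ℤ, dimH ((fun x : ℝ => (q : ℝ) + x) '' Hs w q) := by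
        rw [← dimH_iUnion]
        exact h1.trans_le (dimH_mono h3)
      obtain ⟨q, hq⟩ := lt_iSup_iff.1 h4
      have h5 : Isometry (fun x : ℝ => (q : ℝ) + x) := isometry_add_left _
      rw [h5.dimH_image] at hq
      exact ⟨q, hq⟩
    obtain ⟨q, hq⟩ := h2
    obtain ⟨m, hm⟩ := exists_cont (fun x hx => hx.1) hβ hq
    exact Set.mem_iUnion.2 ⟨(fun i => ⌊w i⌋, q, m), fun i => rfl, hm⟩
  have hex2 : ∃ p, s < dimH (W p) := by
    have h1 : s < ⨆ p, dimH (W p) := by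
      rw [← dimH_iUnion]
      exact hdim.trans_le (dimH_mono hcov)
    exact lt_iSup_iff.1 h1
  obtain ⟨⟨g, q, m⟩, hp⟩ := hex2
  refine ⟨g, q, (fun v : Fin d → ℝ => v + fun i => (g i : ℝ)) ⁻¹' W (g, q, m),
    fun v i => b (v + fun i => (g i : ℝ)) i + q * v i, 1 / ((m + 1 : ℕ) : ℝ), by positivity,
    ?_, ?_, ?_⟩
  · rintro v ⟨hv, -⟩ i
    have h1 : (g i : ℝ) ≤ v i + g i ∧ v i + g i < (g i : ℝ) + 1 := Int.floor_eq_iff.1 (hv i)
    constructor
    · linarith [h1.1]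
    · linarith [h1.2]
  · have h1 := (IsometryEquiv.addRight (fun i => (g i : ℝ) : Fin d → ℝ)).dimH_preimage
      (W (g, q, m))
    refine lt_of_lt_of_le hp (le_of_eq h1.symm)
  · rintro v ⟨-, hv⟩
    refine hv.mono ?_ fun x hx => hx.1
    rintro τ ⟨h2, h4⟩
    refine ⟨h2, _, h4, ?_⟩
    ext l
    refine Fin.cases ?_ (fun i => ?_) l
    · rfl
    · change (b (v + fun i => (g i : ℝ)) i + (q + τ) * (v i + g i)) - (q + τ) * g i =
        (b (v + fun i => (g i : ℝ)) i + q * v i) + τ * v i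
      ring

end Pool.Agent.V5helper19.KD
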