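import Pool.Agent.V5helper19.KD.DiscE
import Pool.Agent.V5helper19.KD.Count
import Pool.Agent.V5helper19.KD.SlopesE

/-!
# Hausdorff dimension of sets which meet lines of many directions in dimension one
-/

set_option autoImplicit false

open Finset MeasureTheory
open scoped Classical ENNReal NNReal

namespace Pool.Agent.V5helper19.KD
open Pool.Agent.W46.HD Pool.Agent.W605.HD Pool.Agent.Y674.HK Pool.Agent.Y254HK

/-- the final numerical contradiction -/
theorem numericE {c C γ α ρ η ε L x2 N S s β l : ℝ} {d k : ℕ} (hc : 1 ≤ c) (hC : 0 ≤ C)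
    (hγ : γ = s - c * (α - 1)) (hγ0 : 0 < γ) (hη : η = γ * Real.log 2 / (4 * (1 + C)))
    (hε : ε = γ / 4)
    (hβ : C * (1 - β) ≤ γ / 8)
    (hρ : ρ = Real.exp (-η)) (hx2 : 0 < x2)
    (hL : L = c * ((d + 1) * Real.log 4 + α * Real.log 2) + C * (1 - Real.log x2))
    (hk : L < γ * Real.log 2 / 4 * k)
    (hl : l = x2 * ρ ^ k * ((2 : ℝ) ^ k) ^ (β - 1))
    (hN : ρ ^ k * ((2 : ℝ) ^ k) ^ s ≤ N)
    (hS1 : 1 ≤ S) (hS : S ≤ 4 ^ (d + 1) * (2 : ℝ) ^ (α * (k + 1)))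
    (hD : Real.log N ≤ c * Real.log (S / ((2 ^ k : ℕ) : ℝ)) +
      ε * Real.log ((2 ^ k : ℕ) : ℝ) + C * (1 + Real.log (1 / l))) : False := by
  have hρ0 : 0 < ρ := by rw [hρ]; exact Real.exp_pos _
  have hlog2 : 0 < Real.log 2 := Real.log_pos (by norm_num)
  have hlρ : Real.log (ρ ^ k) = -(k * η) := by
    rw [Real.log_pow, hρ, Real.log_exp]; ring
  have h1 : - k * η + s * (k * Real.log 2) ≤ Real.log N := by
    have h2 := Real.log_le_log (by positivity) hN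
    rw [Real.log_mul (by positivity) (by positivity), hlρ,
      Real.log_rpow (by positivity), Real.log_pow] at h2
    linarith
  have hlk : Real.log ((2 ^ k : ℕ) : ℝ) = k * Real.log 2 := by
    push_cast
    rw [Real.log_pow]
  have h2 : Real.log (S / ((2 ^ k : ℕ) : ℝ)) ≤
      (d + 1) * Real.log 4 + α * (k + 1) * Real.log 2 - k * Real.log 2 := by
    rw [Real.log_div (by linarith) (by positivity)]
    have h3 := Real.log_le_log (by linarith) hS
    rw [Real.log_mul (by positivity) (by positivity), Real.log_pow,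
      Real.log_rpow (by norm_num)] at h3
    push_cast at h3 ⊢
    rw [Real.log_pow]
    linarith
  have h3 : Real.log (1 / l) = -Real.log x2 + k * η + (1 - β) * (k * Real.log 2) := by
    rw [hl, one_div, Real.log_inv, Real.log_mul (by positivity) (by positivity),
      Real.log_mul hx2.ne' (by positivity), hlρ, Real.log_rpow (by positivity), Real.log_pow]
    ring
  rw [h3, hlk] at hD
  have h4 : c * Real.log (S / ((2 ^ k : ℕ) : ℝ)) ≤
      c * ((d + 1) * Real.log 4 + α * (k + 1) * Real.log 2 - k * Real.log 2) :=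
    mul_le_mul_of_nonneg_left h2 (by linarith)
  have h5 : (1 + C) * η = γ * Real.log 2 / 4 := by
    rw [hη]
    have : (1 + C) ≠ 0 := by linarith
    field_simp
  have h6 : γ * Real.log 2 * k ≤ k * ((1 + C) * η) + ε * (k * Real.log 2) +
      C * (1 - β) * (k * Real.log 2) + L := by
    rw [hL, hγ]
    nlinarith
  have hk0 : (0 : ℝ) ≤ k := Nat.cast_nonneg k
  have h7 : C * (1 - β) * (k * Real.log 2) ≤ γ / 8 * (k * Real.log 2) :=
    mul_le_mul_of_nonneg_right hβ (by positivity)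
  rw [h5, hε] at h6
  have h8 : 0 ≤ γ * Real.log 2 * k := by positivity
  nlinarith

/-- the counting inequality with losses implies the lower bound for the dimension, for an arbitrary
set of directions -/
theorem haus_coreE (d : ℕ) (c : ℝ) (hc : 1 ≤ c) (hDense : ∀ c' : ℝ, c < c' → DenseG d c')
    (U K : Set (EuclideanSpace ℝ (Fin (d + 1))))
    (hK : ∀ e ∈ U, ‖e‖ = 1 ∧ e 0 ≠ 0 ∧ ∀ β : ℝ, β < 1 → ∃ a : EuclideanSpace ℝ (Fin (d + 1)),
      ENNReal.ofReal β < dimH {t : ℝ | a + t • e ∈ K})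
    (s : ℝ≥0) (hU : (s : ℝ≥0∞) < dimH U) :
    ENNReal.ofReal (1 + s / c) ≤ dimH K := by
  by_contra hcon
  rw [not_le] at hcon
  obtain ⟨α, hα1, hα2⟩ := ENNReal.lt_iff_exists_nnreal_btwn.1 hcon
  have hc0 : (0 : ℝ) < c := by linarith
  have hs0 : (0 : ℝ) ≤ s := NNReal.coe_nonneg s
  have hα3 : (α : ℝ) < 1 + s / c := by
    have h1 : ENNReal.ofReal (α : ℝ) < ENNReal.ofReal (1 + s / c) := by
      rwa [ENNReal.ofReal_coe_nnreal]
    exact (ENNReal.ofReal_lt_ofReal_iff (by positivity)).1 h1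
  -- the exponent `c'`
  obtain ⟨γ0, hγ0⟩ : ∃ γ0 : ℝ, γ0 = s - c * (α - 1) := ⟨_, rfl⟩
  have hγ0pos : 0 < γ0 := by
    rw [hγ0]
    have h1 : ((α : ℝ) - 1) * c < s := by
      rw [← lt_div_iff₀ hc0]
      linarith
    linarith
  obtain ⟨c', hc'⟩ : ∃ c' : ℝ, c' = c + γ0 / (2 * (α + 1)) := ⟨_, rfl⟩
  have hα0 : (0 : ℝ) ≤ α := NNReal.coe_nonneg α
  have hcc' : c < c' := by
    rw [hc']
    have : 0 < γ0 / (2 * ((α : ℝ) + 1)) := by positivity
    linarith
  have hc'1 : 1 ≤ c' := by linarith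
  obtain ⟨γ, hγ⟩ : ∃ γ : ℝ, γ = s - c' * (α - 1) := ⟨_, rfl⟩
  have hγpos : 0 < γ := by
    have h1 : γ = γ0 - γ0 / (2 * ((α : ℝ) + 1)) * (α - 1) := by
      rw [hγ, hc', hγ0]; ring
    have h2 : γ0 / (2 * ((α : ℝ) + 1)) * (α - 1) ≤ γ0 / 2 := by
      rw [div_mul_eq_mul_div, div_le_div_iff₀ (by positivity) (by norm_num)]
      nlinarith
    linarith
  obtain ⟨ε, hε⟩ : ∃ ε : ℝ, ε = γ / 4 := ⟨_, rfl⟩
  obtain ⟨C, hC0, hC⟩ := hDense c' hcc' ε (by rw [hε]; positivity)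
  have hlog2 : 0 < Real.log 2 := Real.log_pos (by norm_num)
  obtain ⟨η, hη⟩ : ∃ η : ℝ, η = γ * Real.log 2 / (4 * (1 + C)) := ⟨_, rfl⟩
  have hη0 : 0 < η := by rw [hη]; positivity
  obtain ⟨ρ, hρ⟩ : ∃ ρ : ℝ, ρ = Real.exp (-η) := ⟨_, rfl⟩
  have hρ0 : 0 < ρ := by rw [hρ]; exact Real.exp_pos _
  have hρ1 : ρ < 1 := by
    rw [hρ, Real.exp_lt_one_iff]
    linarith
  obtain ⟨β, hβ⟩ : ∃ β : ℝ, β = 1 - min (1 / 2) (γ / (8 * (1 + C))) := ⟨_, rfl⟩
  have hmin : 0 < min (1 / 2 : ℝ) (γ / (8 * (1 + C))) := lt_min (by norm_num) (by positivity)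
  have hβ1 : β < 1 := by rw [hβ]; linarith
  have hβ0 : 0 < β := by
    have : min (1 / 2 : ℝ) (γ / (8 * (1 + C))) ≤ 1 / 2 := min_le_left _ _
    rw [hβ]; linarith
  have hβC : C * (1 - β) ≤ γ / 8 := by
    have h1 : 1 - β ≤ γ / (8 * (1 + C)) := by
      rw [hβ]
      have := min_le_right (1 / 2 : ℝ) (γ / (8 * (1 + C)))
      linarith
    calc C * (1 - β) ≤ (1 + C) * (γ / (8 * (1 + C))) := by
          apply mul_le_mul (by linarith) h1 (by linarith) (by linarith)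
      _ = γ / 8 := by
          have : (1 + C) ≠ 0 := by linarith
          field_simp
  obtain ⟨g, h0, V, B, y2, hy2pos, hV01, hVdim, hVK⟩ := slopesE d s β hβ0 U K
    (fun e he => ⟨(hK e he).1, (hK e he).2.1, (hK e he).2.2 β hβ1⟩) hU
  have h1ρ : 0 < 1 - ρ := by linarith
  obtain ⟨x2, hx2⟩ : ∃ x : ℝ, x = y2 * (1 - ρ) / 2 := ⟨_, rfl⟩
  have hx2pos : 0 < x2 := by rw [hx2]; positivity
  obtain ⟨L, hL⟩ : ∃ L : ℝ, L = c' * ((d + 1) * Real.log 4 + α * Real.log 2) +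
    C * (1 - Real.log x2) := ⟨_, rfl⟩
  obtain ⟨k0, hk0⟩ : ∃ k0 : ℕ, L < γ * Real.log 2 / 4 * k0 := by
    have hpos : 0 < γ * Real.log 2 / 4 := by positivity
    obtain ⟨m, hm⟩ := exists_nat_gt (L / (γ * Real.log 2 / 4))
    refine ⟨m, ?_⟩
    rw [div_lt_iff₀ hpos] at hm
    linarith
  have hcover := fun m : ℕ => cover (shr d g '' K) α ((dimH_shr d g K).trans_lt hα1) m
  choose t κ ht1 ht2 ht3 ht4 using hcover
  let E0 : (Fin d → ℝ) → Set ℝ := fun v => {τ : ℝ | (0 ≤ τ ∧ τ < 1) ∧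
        pt d (h0 + τ) (fun i => B v i + τ * v i) ∈ shr d g '' K}
  let E : ℕ → ℕ → (Fin d → ℝ) → Set ℝ := fun m k v => {τ | (0 ≤ τ ∧ τ < 1) ∧
    ∃ i, κ m i = k ∧ pt d (h0 + τ) (fun l => B v l + τ * v l) ∈ t m i}
  let W : ℕ → ℕ → Set (Fin d → ℝ) := fun m k => {v | v ∈ V ∧
    x2 * ρ ^ k ≤ ((fr k '' E m k v).ncard : ℝ) * ((1 / 2 : ℝ) ^ k) ^ β}
  have hcovE : ∀ m, ∀ v ∈ V, E0 v ⊆ ⋃ k, E m k v := by
    intro m v hv τ hτ
    obtain ⟨i, hi⟩ := Set.mem_iUnion.1 (ht1 m hτ.2)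
    exact Set.mem_iUnion.2 ⟨κ m i, hτ.1, i, rfl, hi⟩
  have hWcov : ∀ m, V ⊆ ⋃ k, W m k := by
    intro m v hv
    obtain ⟨k, hk⟩ := pigeonC (hVK v hv) hy2pos hρ0 hρ1 (fun k => E m k v) (hcovE m v hv)
      (fun k x hx => hx.1)
    rw [← hx2] at hk
    exact Set.mem_iUnion.2 ⟨k, hv, hk⟩
  have hWemp : ∀ m k, k < m → W m k = ∅ := by
    intro m k hkm
    rw [Set.eq_empty_iff_forall_notMem]
    rintro v ⟨-, hvE⟩
    have hx2k : 0 < x2 * ρ ^ k := by positivity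
    have hne2 : (E m k v).Nonempty := by
      by_contra h
      rw [Set.not_nonempty_iff_eq_empty] at h
      rw [h, Set.image_empty, Set.ncard_empty, Nat.cast_zero, zero_mul] at hvE
      linarith
    obtain ⟨τ, -, i, hi, -⟩ := hne2
    have := ht2 m i
    omega
  -- a scale with many directions
  obtain ⟨m, hm, k, hmk⟩ : ∃ m, k0 ≤ m ∧ ∃ k,
      ρ ^ k * ((2 : ℝ) ^ k) ^ (s : ℝ) < ((fl d k '' W m k).ncard : ℝ) := by
    by_contra hno
    push Not at hno
    have h1 := null_of_counts V hV01 s hs0 ρ hρ0 hρ1 W k0 (fun m _ => hWcov m)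
      (fun m k v hv => hv.1) hWemp (fun m hm k => hno m hm k)
    have h2 := hausdorffMeasure_of_lt_dimH hVdim
    rw [h1] at h2
    exact ENNReal.zero_ne_top h2
  have hWne : (W m k).Nonempty := by
    by_contra hcon2
    rw [Set.not_nonempty_iff_eq_empty] at hcon2
    rw [hcon2, Set.image_empty, Set.ncard_empty] at hmk
    have : 0 < ρ ^ k * ((2 : ℝ) ^ k) ^ (s : ℝ) := by positivity
    push_cast at hmk
    linarith
  have hkk0 : k0 ≤ k := by
    by_contra hcon2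
    push Not at hcon2
    rw [hWemp m k (by omega)] at hWne
    exact Set.not_nonempty_empty hWne
  have hx2k : 0 < x2 * ρ ^ k := by positivity
  -- the sets of scale `k`
  have hfin : {i : ℕ | κ m i = k}.Finite := by
    by_contra hinf
    obtain ⟨l, hl⟩ := exists_nat_gt ((2 : ℝ) ^ ((α : ℝ) * (k + 1)))
    obtain ⟨S, hS1, hS2⟩ := Set.Infinite.exists_subset_card_eq hinf l
    have h1 := ht4 m k S (fun i hi => hS1 hi)
    rw [hS2] at h1
    linarith
  have hI : ∀ i, i ∈ hfin.toFinset ↔ κ m i = k := by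
    intro i
    rw [Set.Finite.mem_toFinset]
    rfl
  obtain ⟨l, hl⟩ : ∃ l : ℝ, l = x2 * ρ ^ k * ((2 : ℝ) ^ k) ^ (β - 1) := ⟨_, rfl⟩
  have hlpos : 0 < l := by rw [hl]; positivity
  obtain ⟨Ω, _, _, A, D, F, hfam, hF, hcard, hS1, hS2⟩ := discreteE d k h0
    (W m k) (fun v hv => hV01 v hv.1) B (t m)
    hfin.toFinset (fun i hi x hx y hy => by
      have h1 := ht3 m i x hx y hy
      rwa [(hI i).1 hi] at h1) (E m k)
    (fun v _ τ hτ => ⟨hτ.1, by
      obtain ⟨i, hi1, hi2⟩ := hτ.2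
      exact ⟨i, (hI i).2 hi1, hi2⟩⟩) l hlpos hWne
    (fun v hv => by
      have h1 := hv.2
      have h2 : l * ((2 ^ k : ℕ) : ℝ) = x2 * ρ ^ k * ((2 : ℝ) ^ k) ^ β := by
        rw [hl]
        push_cast
        rw [mul_assoc, ← Real.rpow_add_one (by positivity)]
        congr 2
        ring
      have h3 : ((1 / 2 : ℝ) ^ k) ^ β * ((2 : ℝ) ^ k) ^ β = 1 := by
        rw [← Real.mul_rpow (by positivity) (by positivity), ← mul_pow]
        norm_num
      rw [h2]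
      calc x2 * ρ ^ k * ((2 : ℝ) ^ k) ^ β ≤
            (((fr k '' E m k v).ncard : ℝ) * ((1 / 2 : ℝ) ^ k) ^ β) * ((2 : ℝ) ^ k) ^ β :=
            mul_le_mul_of_nonneg_right h1 (by positivity)
        _ = _ := by rw [mul_assoc, h3, mul_one])
  have hDk := hC (2 ^ k) Ω A D hfam F l hlpos hF
  have hIcard := ht4 m k hfin.toFinset fun i hi => (hI i).1 hi
  have hcard' : ρ ^ k * ((2 : ℝ) ^ k) ^ (s : ℝ) ≤ (Fintype.card Ω : ℝ) := by
    rw [← hcard]
    exact hmk.le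
  refine numericE hc'1 hC0 hγ hγpos hη hε hβC hρ hx2pos hL ?_ hl hcard' hS1 (hS2.trans ?_) hDk
  · refine hk0.trans_le (mul_le_mul_of_nonneg_left ?_ (by positivity))
    exact_mod_cast hkk0
  · exact mul_le_mul_of_nonneg_left hIcard (by positivity)

/-- the directions of the lines which meet `K` in dimension arbitrarily close to one -/
def dirs {n : ℕ} (K : Set (EuclideanSpace ℝ (Fin n))) : Set (EuclideanSpace ℝ (Fin n)) :=
  {e | ‖e‖ = 1 ∧ ∀ β : ℝ, β < 1 → ∃ a : EuclideanSpace ℝ (Fin n),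
    ENNReal.ofReal β < dimH {t : ℝ | a + t • e ∈ K}}

theorem one_le_dim {n : ℕ} {K : Set (EuclideanSpace ℝ (Fin n))} (h : (dirs K).Nonempty) :
    1 ≤ dimH K := by
  obtain ⟨e, he, ha⟩ := h
  have key : ∀ β : ℝ, β < 1 → ENNReal.ofReal β ≤ dimH K := by
    intro β hβ
    obtain ⟨a, ha⟩ := ha β hβ
    have hiso : Isometry (fun t : ℝ => a + t • e) := by
      refine Isometry.of_dist_eq fun x y => ?_
      rw [dist_add_left, dist_eq_norm, ← sub_smul, norm_smul, he, mul_one, Real.dist_eq,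
        Real.norm_eq_abs]
    have h1 : dimH ((fun t : ℝ => a + t • e) '' {t : ℝ | a + t • e ∈ K}) ≤ dimH K := by
      apply dimH_mono
      rintro _ ⟨t, ht, rfl⟩
      exact ht
    rw [hiso.dimH_image] at h1
    exact ha.le.trans h1
  by_contra hcon
  rw [not_le] at hcon
  have h2 : dimH K ≠ ⊤ := ne_top_of_lt hcon
  have h3 : (dimH K).toReal < 1 := by
    have := (ENNReal.toReal_lt_toReal h2 ENNReal.one_ne_top).2 hcon
    simpa using this
  have h4 := key (((dimH K).toReal + 1) / 2) (by linarith)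
  have h5 := ENNReal.toReal_mono h2 h4
  rw [ENNReal.toReal_ofReal (by positivity)] at h5
  linarith

theorem dirs_bound (d : ℕ) (hd : 1 ≤ d) (c : ℝ) (hc1 : 1 ≤ c)
    (hc : 0 ≤ (d : ℝ) * (c ^ 3 - 4 * c + 2) + c * (3 * c - 1 - c ^ 2))
    (K : Set (EuclideanSpace ℝ (Fin (d + 1)))) (s : ℝ≥0) (hs : (s : ℝ≥0∞) < dimH (dirs K)) :
    ENNReal.ofReal (1 + s / c) ≤ dimH K := by
  -- the coordinate which serves as height
  have hex : ∃ i : Fin (d + 1), (s : ℝ≥0∞) < dimH {e | e ∈ dirs K ∧ e i ≠ 0} := by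
    have h1 : dirs K ⊆ ⋃ i : Fin (d + 1), {e | e ∈ dirs K ∧ e i ≠ 0} := by
      intro e he
      by_contra hcon
      have h2 : ∀ i, e i = 0 := by
        intro i
        by_contra h3
        exact hcon (Set.mem_iUnion.2 ⟨i, he, h3⟩)
      have h3 : e = 0 := by
        ext i
        exact h2 i
      have h4 := he.1
      rw [h3, norm_zero] at h4
      exact zero_ne_one h4
    have h2 : (s : ℝ≥0∞) < ⨆ i : Fin (d + 1), dimH {e | e ∈ dirs K ∧ e i ≠ 0} := by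
      rw [← dimH_iUnion]
      exact hs.trans_le (dimH_mono h1)
    exact lt_iSup_iff.1 h2
  obtain ⟨i, hi⟩ := hex
  let L : EuclideanSpace ℝ (Fin (d + 1)) ≃ₗᵢ[ℝ] EuclideanSpace ℝ (Fin (d + 1)) :=
    LinearIsometryEquiv.piLpCongrLeft 2 ℝ ℝ (Equiv.swap 0 i)
  have hL0 : ∀ x : EuclideanSpace ℝ (Fin (d + 1)), (L x) 0 = x i := by
    intro x
    simp [L, LinearIsometryEquiv.piLpCongrLeft_apply]
  have h1 : (s : ℝ≥0∞) < dimH (L '' {e | e ∈ dirs K ∧ e i ≠ 0}) := by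
    rw [L.isometry.dimH_image]
    exact hi
  have h2 := haus_coreE d c hc1 (dense_all hd hc1 hc) (L '' {e | e ∈ dirs K ∧ e i ≠ 0}) (L '' K)
    (by
      rintro _ ⟨e, ⟨⟨he1, ha⟩, he0⟩, rfl⟩
      refine ⟨by rw [L.norm_map]; exact he1, by rw [hL0]; exact he0, fun β hβ => ?_⟩
      obtain ⟨a, ha⟩ := ha β hβ
      refine ⟨L a, lt_of_lt_of_le ha (dimH_mono ?_)⟩
      intro t ht
      refine ⟨a + t • e, ht, ?_⟩
      rw [map_add, map_smul]) s h1
  rwa [L.isometry.dimH_image] at h2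

/-- **The dimension of the set of directions of lines which meet `K` in dimension one.** -/
theorem main (d : ℕ) (hd : 1 ≤ d) (c : ℝ) (hc1 : 1 ≤ c)
    (hc : 0 ≤ (d : ℝ) * (c ^ 3 - 4 * c + 2) + c * (3 * c - 1 - c ^ 2))
    (K : Set (EuclideanSpace ℝ (Fin (d + 1)))) :
    dimH (dirs K) ≤ ENNReal.ofReal c * (dimH K - 1) := by
  rcases Set.eq_empty_or_nonempty (dirs K) with he | hne
  · rw [he, dimH_empty]
    exact bot_le
  have h1 := one_le_dim hne
  by_contra hcon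
  rw [not_le] at hcon
  obtain ⟨s, hs1, hs2⟩ := ENNReal.lt_iff_exists_nnreal_btwn.1 hcon
  have h2 := dirs_bound d hd c hc1 hc K s hs2
  have hc0 : 0 < c := by linarith
  have h3 : ENNReal.ofReal c * ENNReal.ofReal (s / c) ≤ ENNReal.ofReal c * (dimH K - 1) := by
    refine mul_le_mul_right ?_ _
    rw [ENNReal.ofReal_add zero_le_one (by positivity), ENNReal.ofReal_one] at h2
    exact ENNReal.le_sub_of_add_le_left ENNReal.one_ne_top h2
  rw [← ENNReal.ofReal_mul hc0.le, mul_div_cancel₀ _ hc0.ne', ENNReal.ofReal_coe_nnreal] at h3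
  exact absurd hs1 (not_lt.2 h3)

end Pool.Agent.V5helper19.KD
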