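import Pool.Agent.Y674.HK.Haus
import Pool.Agent.Y254.HK.Sets
import Pool.Agent.V5helper19.KD.Cont

/-!
# Sets which meet lines of many directions in positive length: discretization
-/

set_option autoImplicit false

open Finset MeasureTheory
open scoped Classical ENNReal NNReal

namespace Pool.Agent.V5helper19.KD
open Pool.Agent.W46.HD Pool.Agent.W605.HD Pool.Agent.Y674.HK

/-- Discretization at the scale `2 ^ (-k)`. -/
theorem discreteE (d k : ℕ) (h0 : ℝ) (W : Set (Fin d → ℝ))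
    (hW : ∀ v ∈ W, ∀ i, 0 ≤ v i ∧ v i ≤ 1) (B : (Fin d → ℝ) → Fin d → ℝ)
    (t : ℕ → Set (EuclideanSpace ℝ (Fin (d + 1)))) (I : Finset ℕ)
    (ht : ∀ i ∈ I, ∀ x ∈ t i, ∀ y ∈ t i, dist x y ≤ (1 / 2 : ℝ) ^ k)
    (E : (Fin d → ℝ) → Set ℝ) (hE : ∀ v ∈ W, ∀ τ ∈ E v, (0 ≤ τ ∧ τ < 1) ∧
      ∃ i ∈ I, pt d (h0 + τ) (fun l => B v l + τ * v l) ∈ t i)
    (x2 : ℝ) (hx2 : 0 < x2) (h1 : W.Nonempty)
    (h2 : ∀ v ∈ W, x2 * ((2 ^ k : ℕ) : ℝ) ≤ ((fr k '' E v).ncard : ℝ)) :
    ∃ (Ω : Type) (_ : Fintype Ω) (_ : Nonempty Ω) (A D : Ω → Fin d → ℝ)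
      (F : Ω → Finset (Fin (2 ^ k))), IsFam (2 ^ k) D ∧
      (∀ ω, x2 * ((2 ^ k : ℕ) : ℝ) ≤ ((F ω).card : ℝ)) ∧
      ((fun (v : Fin d → ℝ) (i : Fin d) => ⌊((2 ^ k : ℕ) : ℝ) * v i⌋) '' W).ncard =
        Fintype.card Ω ∧
      1 ≤ (∑ j : Fin (2 ^ k),
        (((Finset.univ.filter fun ω => j ∈ F ω).image (cell A D j)).card : ℝ)) ∧
      (∑ j : Fin (2 ^ k),
        (((Finset.univ.filter fun ω => j ∈ F ω).image (cell A D j)).card : ℝ)) ≤
        4 ^ (d + 1) * (I.card : ℝ) := by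
  obtain ⟨n, hn⟩ : ∃ n : ℕ, n = 2 ^ k := ⟨_, rfl⟩
  have hn1 : 1 ≤ n := by rw [hn]; exact Nat.one_le_two_pow
  have hn0 : (0 : ℝ) < n := by exact_mod_cast hn1
  have hhalf : (1 / 2 : ℝ) ^ k = 1 / (n : ℝ) := by
    rw [hn]; push_cast; rw [div_pow, one_pow]
  have hnR : (n : ℝ) = (2 : ℝ) ^ k := by rw [hn]; push_cast; rfl
  rw [hhalf] at ht
  rw [← hn]
  -- the grid cubes
  let fl : (Fin d → ℝ) → Fin d → ℤ := fun v i => ⌊(n : ℝ) * v i⌋
  have hfin : (fl '' W).Finite := by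
    apply Set.Finite.subset (Fintype.piFinset (fun _ : Fin d => Finset.Icc (0 : ℤ) n)).finite_toSet
    rintro g ⟨v, hv, rfl⟩
    rw [Finset.mem_coe, Fintype.mem_piFinset]
    intro i
    rw [Finset.mem_Icc]
    have h3 := hW v hv i
    constructor
    · exact Int.floor_nonneg.2 (mul_nonneg hn0.le h3.1)
    · have h4 : (n : ℝ) * v i ≤ (n : ℤ) := by
        push_cast
        nlinarith
      exact Int.cast_le.1 ((Int.floor_le _).trans h4)
  obtain ⟨G, hG⟩ : ∃ G : Finset (Fin d → ℤ), G = hfin.toFinset := ⟨_, rfl⟩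
  have hmemG : ∀ g, g ∈ G ↔ ∃ v ∈ W, fl v = g := by
    intro g
    rw [hG, Set.Finite.mem_toFinset]
    rfl
  have hex : ∀ ω : {g // g ∈ G}, ∃ v ∈ W, fl v = ω.1 := fun ω => (hmemG ω.1).1 ω.2
  choose D hDW hDfl using hex
  have hWne : W.Nonempty := h1
  obtain ⟨v0, hv0⟩ := hWne
  have hne : Nonempty {g // g ∈ G} := ⟨⟨fl v0, (hmemG _).2 ⟨v0, hv0, rfl⟩⟩⟩
  have hfam : IsFam n D := ⟨hn1, fun ω i => (hW _ (hDW ω) i).1, fun ω i => (hW _ (hDW ω) i).2,
    fun ω ω' h => by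
      apply Subtype.ext
      rw [← hDfl ω, ← hDfl ω']
      exact funext h⟩
  have hcardG : (fl '' W).ncard = Fintype.card {g // g ∈ G} := by
    rw [Fintype.card_coe, hG]
    exact Set.ncard_eq_toFinset_card _ hfin
  -- the heights
  let F : {g // g ∈ G} → Finset (Fin n) := fun ω =>
    Finset.univ.filter fun j : Fin n => ∃ τ ∈ E (D ω), ((j : ℕ) : ℝ) ≤ n * τ ∧
      n * τ < ((j : ℕ) : ℝ) + 1
  have hF : ∀ ω, x2 * (n : ℝ) ≤ ((F ω).card : ℝ) := by
    intro ω
    have hsub : fr k '' E (D ω) ⊆ ((F ω).image (fun j : Fin n => ((j : ℕ) : ℤ)) : Finset ℤ) := by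
      rintro _ ⟨τ, hτ, rfl⟩
      have h3 := (hE (D ω) (hDW ω) τ hτ).1
      have h4 : 0 ≤ (n : ℝ) * τ := mul_nonneg hn0.le h3.1
      have h5 : (n : ℝ) * τ < n := by nlinarith [h3.2]
      have h6 : ⌊(n : ℝ) * τ⌋₊ < n := (Nat.floor_lt h4).2 h5
      rw [Finset.mem_coe, Finset.mem_image]
      refine ⟨⟨⌊(n : ℝ) * τ⌋₊, h6⟩, Finset.mem_filter.2 ⟨Finset.mem_univ _, τ, hτ,
        Nat.floor_le h4, Nat.lt_floor_add_one _⟩, ?_⟩
      change ((⌊(n : ℝ) * τ⌋₊ : ℕ) : ℤ) = fr k τ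
      unfold fr
      rw [← hn]
      exact Int.natCast_floor_eq_floor h4
    have h3 : (fr k '' E (D ω)).ncard ≤ (F ω).card := by
      refine (Set.ncard_le_ncard hsub (Finset.finite_toSet _)).trans ?_
      rw [Set.ncard_coe_finset]
      exact Finset.card_image_le
    have h4 := h2 _ (hDW ω)
    rw [← hn] at h4
    exact h4.trans (by exact_mod_cast h3)
  -- the cells
  let A : {g // g ∈ G} → Fin d → ℝ := fun ω l => n * B (D ω) l
  let base : Fin (d + 1) → ℝ := Fin.cons h0 (fun _ => 0)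
  let x : ℕ → EuclideanSpace ℝ (Fin (d + 1)) := fun i => if h : (t i).Nonempty then h.some else 0
  have hx : ∀ i, (t i).Nonempty → x i ∈ t i := by
    intro i h
    simp only [x, dif_pos h]
    exact h.some_mem
  let f : ℕ → Fin (d + 1) → ℤ := fun i l => ⌊(n : ℝ) * (x i l - base l)⌋
  obtain ⟨Z, hZ⟩ : ∃ Z : Finset (Fin (d + 1) → ℤ),
    Z = I.biUnion (fun i => Fintype.piFinset (fun l => Finset.Icc (f i l - 2) (f i l + 1))) :=
    ⟨_, rfl⟩
  have hZcard : Z.card ≤ 4 ^ (d + 1) * I.card := by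
    rw [hZ]
    refine Finset.card_biUnion_le.trans ?_
    have h3 : ∀ i ∈ I, (Fintype.piFinset (fun l => Finset.Icc (f i l - 2) (f i l + 1))).card
        = 4 ^ (d + 1) := by
      intro i _
      rw [Fintype.card_piFinset]
      have h4 : ∀ l : Fin (d + 1), (Finset.Icc (f i l - 2) (f i l + 1)).card = 4 := by
        intro l
        rw [Int.card_Icc]
        have : f i l + 1 + 1 - (f i l - 2) = 4 := by ring
        rw [this]
        rfl
      rw [Finset.prod_congr rfl fun l _ => h4 l, Finset.prod_const, Finset.card_univ,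
        Fintype.card_fin]
    rw [Finset.sum_congr rfl h3, Finset.sum_const, smul_eq_mul, mul_comm]
  have hkey : ∀ (ω : {g // g ∈ G}) (j : Fin n), j ∈ F ω →
      (Fin.cons ((j : ℕ) : ℤ) (cell A D j ω) : Fin (d + 1) → ℤ) ∈ Z := by
    intro ω j hj
    obtain ⟨-, τ, hτE, hτ1, hτ2⟩ := Finset.mem_filter.1 hj
    obtain ⟨-, i, hiI, hmem⟩ := hE (D ω) (hDW ω) τ hτE
    have hdist := ht i hiI _ hmem _ (hx i ⟨_, hmem⟩)
    have hco : ∀ l, |(n : ℝ) * (pt d (h0 + τ) (fun l => B (D ω) l + τ * D ω l) l - base l)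
        - n * (x i l - base l)| ≤ 1 := by
      intro l
      have h3 := (coord_dist _ _ l).trans hdist
      have h4 : (n : ℝ) * (pt d (h0 + τ) (fun l => B (D ω) l + τ * D ω l) l - base l)
        - n * (x i l - base l) = n * (pt d (h0 + τ) (fun l => B (D ω) l + τ * D ω l) l
          - x i l) := by ring
      rw [h4, abs_mul, abs_of_pos hn0]
      calc (n : ℝ) * |pt d (h0 + τ) (fun l => B (D ω) l + τ * D ω l) l - x i l|
          ≤ n * (1 / n) := mul_le_mul_of_nonneg_left h3 hn0.le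
        _ = 1 := by field_simp
    rw [hZ, Finset.mem_biUnion]
    refine ⟨i, hiI, ?_⟩
    rw [Fintype.mem_piFinset]
    intro l
    rw [Finset.mem_Icc]
    refine Fin.cases ?_ (fun l' => ?_) l
    · have h3 := abs_le.1 (hco 0)
      have h4 : base 0 = h0 := rfl
      rw [pt_zero, h4] at h3
      have h5 := Int.floor_le ((n : ℝ) * (x i 0 - base 0))
      have h6 := Int.lt_floor_add_one ((n : ℝ) * (x i 0 - base 0))
      rw [Fin.cons_zero]
      have h7 : ((f i 0 : ℤ) : ℝ) ≤ (n : ℝ) * (x i 0 - h0) := h5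
      have h8 : (n : ℝ) * (x i 0 - h0) < ((f i 0 : ℤ) : ℝ) + 1 := h6
      constructor
      · have h9 : (((f i 0 - 2 : ℤ)) : ℝ) < (((j : ℕ) : ℤ) : ℝ) := by
          push_cast
          nlinarith [h3.1, h3.2]
        exact (Int.cast_lt.1 h9).le
      · have h9 : (((j : ℕ) : ℤ) : ℝ) < (((f i 0 + 2 : ℤ)) : ℝ) := by
          push_cast
          nlinarith [h3.1, h3.2]
        have h10 := Int.cast_lt.1 h9
        omega
    · have h3 := abs_le.1 (hco (Fin.succ l'))
      have h4 : base (Fin.succ l') = 0 := rfl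
      rw [pt_succ, h4, sub_zero, sub_zero] at h3
      have h5 := Int.floor_le ((n : ℝ) * (x i (Fin.succ l') - base (Fin.succ l')))
      have h6 := Int.lt_floor_add_one ((n : ℝ) * (x i (Fin.succ l') - base (Fin.succ l')))
      rw [h4, sub_zero] at h5 h6
      have h7 : ((f i (Fin.succ l') : ℤ) : ℝ) ≤ (n : ℝ) * x i (Fin.succ l') := by
        simp only [f, h4, sub_zero]
        exact h5
      have h8 : (n : ℝ) * x i (Fin.succ l') < ((f i (Fin.succ l') : ℤ) : ℝ) + 1 := by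
        simp only [f, h4, sub_zero]
        exact h6
      rw [Fin.cons_succ]
      have h9 := Int.floor_le (A ω l' + ((j : ℕ) : ℝ) * D ω l')
      have h10 := Int.lt_floor_add_one (A ω l' + ((j : ℕ) : ℝ) * D ω l')
      have h11 : cell A D j ω l' = ⌊A ω l' + ((j : ℕ) : ℝ) * D ω l'⌋ := rfl
      have h12 : A ω l' = n * B (D ω) l' := rfl
      rw [← h11, h12] at h9 h10
      have h13 := hW _ (hDW ω) l'
      have h14 : 0 ≤ (n * τ - ((j : ℕ) : ℝ)) * D ω l' := mul_nonneg (by linarith) h13.1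
      have h15 : (n * τ - ((j : ℕ) : ℝ)) * D ω l' ≤ 1 := by
        have : (n * τ - ((j : ℕ) : ℝ)) * D ω l' ≤ 1 * 1 :=
          mul_le_mul (by linarith) h13.2 h13.1 (by norm_num)
        linarith
      have h16 : (n : ℝ) * (B (D ω) l' + τ * D ω l') = (n * B (D ω) l' + ((j : ℕ) : ℝ) * D ω l')
        + (n * τ - ((j : ℕ) : ℝ)) * D ω l' := by ring
      rw [h16] at h3
      constructor
      · have h17 : (((f i (Fin.succ l') - 3 : ℤ)) : ℝ) < ((cell A D j ω l' : ℤ) : ℝ) := by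
          push_cast
          linarith [h3.1, h3.2]
        have h18 := Int.cast_lt.1 h17
        omega
      · have h17 : ((cell A D j ω l' : ℤ) : ℝ) < (((f i (Fin.succ l') + 2 : ℤ)) : ℝ) := by
          push_cast
          linarith [h3.1, h3.2]
        have h18 := Int.cast_lt.1 h17
        omega
  have hle : ∀ j : Fin n, ((Finset.univ.filter fun ω => j ∈ F ω).image (cell A D j)).card ≤
      (Z.filter (fun z => z 0 = ((j : ℕ) : ℤ))).card := by
    intro j
    apply Finset.card_le_card_of_injOn (fun c => (Fin.cons ((j : ℕ) : ℤ) c : Fin (d + 1) → ℤ))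
    · intro c hc
      rw [Finset.mem_coe, Finset.mem_image] at hc
      obtain ⟨ω, hω, rfl⟩ := hc
      rw [Finset.mem_coe, Finset.mem_filter]
      exact ⟨hkey ω j (Finset.mem_filter.1 hω).2, Fin.cons_zero _ _⟩
    · intro c _ c' _ hcc
      exact (Fin.cons_inj.1 hcc).2
  have hsumle : ∑ j : Fin n, ((Finset.univ.filter fun ω => j ∈ F ω).image (cell A D j)).card ≤
      4 ^ (d + 1) * I.card := by
    refine (Finset.sum_le_sum fun j _ => hle j).trans ?_
    rw [← Finset.card_biUnion]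
    · refine (Finset.card_le_card ?_).trans hZcard
      intro z hz
      rw [Finset.mem_biUnion] at hz
      obtain ⟨j, -, hj⟩ := hz
      exact (Finset.mem_filter.1 hj).1
    · intro j _ j' _ hjj
      rw [Function.onFun, Finset.disjoint_left]
      intro z hz hz'
      apply hjj
      have h3 := (Finset.mem_filter.1 hz).2
      have h4 := (Finset.mem_filter.1 hz').2
      rw [h3] at h4
      exact Fin.ext (by exact_mod_cast h4)
  refine ⟨{g // g ∈ G}, inferInstance, hne, A, D, F, hfam, hF, hcardG, ?_, ?_⟩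
  · obtain ⟨ω0⟩ := hne
    have h3 : 0 < ((F ω0).card : ℝ) := lt_of_lt_of_le (mul_pos hx2 hn0) (hF ω0)
    have h4 : 0 < (F ω0).card := by exact_mod_cast h3
    obtain ⟨j0, hj0⟩ := Finset.card_pos.1 h4
    have h5 : 0 < ((Finset.univ.filter fun ω => j0 ∈ F ω).image (cell A D j0)).card := by
      rw [Finset.card_pos]
      exact ⟨_, Finset.mem_image_of_mem _ (Finset.mem_filter.2 ⟨Finset.mem_univ ω0, hj0⟩)⟩
    have h6 : ((Finset.univ.filter fun ω => j0 ∈ F ω).image (cell A D j0)).card ≤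
        ∑ j : Fin n, ((Finset.univ.filter fun ω => j ∈ F ω).image (cell A D j)).card :=
      Finset.single_le_sum (f := fun j : Fin n =>
        ((Finset.univ.filter fun ω => j ∈ F ω).image (cell A D j)).card)
        (fun j _ => Nat.zero_le _) (Finset.mem_univ j0)
    have h7 : 1 ≤ ∑ j : Fin n, ((Finset.univ.filter fun ω => j ∈ F ω).image (cell A D j)).card :=
      le_trans h5 h6
    exact_mod_cast h7
  · exact_mod_cast hsumle


end Pool.Agent.V5helper19.KD
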