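import Pool.Agent.V5helper19.KD.CoreE

set_option autoImplicit false

/-!
# MP_b1773a: the dimension of the set of directions of the lines which meet a set in dimension one

For an ARBITRARY set `K ⊆ ℝ^n`, `n ≥ 2`, of any dimension, let `dirs K` be the set of the unit vectors
`e` such that the lines parallel to `e` meet `K` in sets of dimension arbitrarily close to one
(`sup_a dim_H {t | a + t e ∈ K} ≥ 1`); this holds in particular if `K` contains a segment parallel to
`e`, or meets some line parallel to `e` in a set of positive length.  We prove the linear inequality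

  `dim_H (dirs K) ≤ c (dim_H K - 1)`

for every `c ≥ 1` with `(n - 1) (c³ - 4 c + 2) + c (3 c - 1 - c²) ≥ 0`; `c = 1.6752` is admissible in all
dimensions, `c = 3/2` for `n = 4`, `c = 1` for `n = 2`.  With `c = 1` this is the sharp inequality
expected in all dimensions (it contains the Kakeya conjecture: the case of Kakeya sets is the case
`dim_H (dirs K) = n - 1`).  So a set which contains a segment in every direction of an arbitrary set
`S` of directions, however small, has dimension at least `1 + dim_H S / c`; and a set which meets a
line of every direction in dimension one has dimension at least `1 + (n - 1) / c`.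

Proof.  The counting inequality for lines with dense sets of heights (`Pool.Agent.Y254HK.dense_all`,
hybrid of the hairbrush method and the Katz-Tao iteration) holds for arbitrary subfamilies of
directions, with a loss which is a power of the density of the heights.  For each large `m` take an
efficient cover of `K` by sets of diameter `2^(-k)`, `k ≥ m`; every line has a scale `k` at which the
sets of this scale cover a proportion `ρ^k` of the `β`-dimensional content of its part in `K`, hence
at least `ρ^k 2^(-k (1 - β))` of the heights of scale `k`.  If for all `m` and `k` the slopes of scale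
`k` could be covered by `ρ^k 2^(k s)` grid cubes of side `2^(-k)`, the set of slopes would have
`s`-dimensional Hausdorff measure zero; finally `β → 1`.
-/

open MeasureTheory
open scoped ENNReal

namespace Pool.Agent.V5helper19.KD.Main

/-- The unit vectors `e` such that the lines parallel to `e` meet `K` in sets of dimension
arbitrarily close to one. -/
def dirs {n : ℕ} (K : Set (EuclideanSpace ℝ (Fin n))) : Set (EuclideanSpace ℝ (Fin n)) :=
  {e | ‖e‖ = 1 ∧ 1 ≤ ⨆ a : EuclideanSpace ℝ (Fin n), dimH {t : ℝ | a + t • e ∈ K}}

theorem dirs_sub {n : ℕ} (K : Set (EuclideanSpace ℝ (Fin n))) :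
    dirs K ⊆ Pool.Agent.V5helper19.KD.dirs K := by
  rintro e ⟨he, h1⟩
  refine ⟨he, fun β hβ => ?_⟩
  have h2 : ENNReal.ofReal β < ⨆ a : EuclideanSpace ℝ (Fin n), dimH {t : ℝ | a + t • e ∈ K} := by
    refine lt_of_lt_of_le ?_ h1
    rw [← ENNReal.ofReal_one]
    exact (ENNReal.ofReal_lt_ofReal_iff one_pos).2 hβ
  exact lt_iSup_iff.1 h2

/-- **The dimension of the set of directions of the lines which meet a set in dimension one.** -/
theorem result (n : ℕ) (hn : 2 ≤ n) (K : Set (EuclideanSpace ℝ (Fin n))) :
    dimH (dirs K) ≤ ENNReal.ofReal 1.6752 * (dimH K - 1) ∧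
    ∀ c : ℝ, 1 ≤ c → 0 ≤ ((n : ℝ) - 1) * (c ^ 3 - 4 * c + 2) + c * (3 * c - 1 - c ^ 2) →
      dimH (dirs K) ≤ ENNReal.ofReal c * (dimH K - 1) := by
  obtain ⟨d, rfl⟩ : ∃ d, n = d + 1 := ⟨n - 1, by omega⟩
  have hd : 1 ≤ d := by omega
  have e1 : (((d + 1 : ℕ) : ℝ) - 1) = d := by push_cast; ring
  have hd0 : (0 : ℝ) ≤ d := Nat.cast_nonneg d
  have hm := dimH_mono (dirs_sub K)
  refine ⟨?_, fun c hc1 hc => ?_⟩
  · exact hm.trans
      (Pool.Agent.V5helper19.KD.main d hd 1.6752 (by norm_num) (by nlinarith) K)
  · rw [e1] at hc
    exact hm.trans (Pool.Agent.V5helper19.KD.main d hd c hc1 hc K)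

end Pool.Agent.V5helper19.KD.Main
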